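import Pool.Agent.MT100G.Defs

/-! Statements of the modules of MT100-GEN.  Paper: PAPER_MT100G.md. -/

set_option autoImplicit false

namespace Pool.Agent.MT100G

open Matrix Polynomial Pool.Agent.MT100 Pool.Agent.Helper78_MT

universe u v

/-! ### Local solutions -/

/-- ODE: existence -/
def OdeStmt : Prop :=
  ∀ (d : Type) [Fintype d] [DecidableEq d] (A : ℂ → Matrix d d ℂ) (c : ℂ) (ρ : ℝ), 0 < ρ →
    (∀ i j, DifferentiableOn ℂ (fun w => A w i j) (Metric.ball c ρ)) →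
    ∃ Y : ℂ → Matrix d d ℂ, Y c = 1 ∧ ∀ w ∈ Metric.ball c ρ, IsUnit (Y w).det ∧
      ∀ i j, HasDerivAt (fun x => Y x i j) ((A w * Y w) i j) w

/-- UNI: uniqueness -/
def UniStmt : Prop :=
  ∀ (d : Type) [Fintype d] [DecidableEq d] (A : ℂ → Matrix d d ℂ) (U : Set ℂ), IsOpen U →
    Convex ℝ U → ∀ Y Y' : ℂ → Matrix d d ℂ,
    (∀ w ∈ U, IsUnit (Y w).det ∧ ∀ i j, HasDerivAt (fun x => Y x i j) ((A w * Y w) i j) w) →
    (∀ w ∈ U, ∀ i j, HasDerivAt (fun x => Y' x i j) ((A w * Y' w) i j) w) →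
    ∃ g : Matrix d d ℂ, ∀ w ∈ U, Y' w = Y w * g

/-- BAS: the solution near infinity -/
def BasStmt : Prop :=
  ∀ (d : Type) [Fintype d] [DecidableEq d] (H K : Matrix d d (PowerSeries ℚ)) (N : Matrix d d ℤ)
    (q : ℤ[X]) (B : Matrix d d ℤ[X]), GSys H K N q B → ∃ R : ℝ, 0 < R ∧
    (∀ (c : ℂ) (ρ : ℝ), 0 < ρ → Metric.ball c ρ ⊆ {w | R < w.re} → SolOn q B c ρ (YH H N)) ∧
    ∀ w : ℝ, R < w → YH H N (w : ℂ) =
      (H.map (fun f => ev f w⁻¹) * eN N (-Real.log w)).map (algebraMap ℝ ℂ)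

/-! ### Chains of discs -/

/-- PER: a chain can avoid finitely many more points -/
def PerStmt : Prop :=
  ∀ (d : Type) [Fintype d] [DecidableEq d] (q : ℤ[X]) (B : Matrix d d ℤ[X]) (U : Set ℂ),
    IsOpen U → ∀ x y : ℂ × ℝ × (ℂ → Matrix d d ℂ), Cnt q B U x y → SolOn q B x.1 x.2.1 x.2.2 →
    Metric.ball x.1 x.2.1 ⊆ U → ∀ Z : Set ℂ, Z.Finite →
    ∀ a ∈ Metric.ball x.1 x.2.1, a ∉ Z → ∀ b ∈ Metric.ball y.1 y.2.1, b ∉ Z →
      ∃ ε0 : ℝ, 0 < ε0 ∧ ∀ ε ε' : ℝ, 0 < ε → ε ≤ ε0 → 0 < ε' → ε' ≤ ε0 →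
        Cnt q B (U \ Z) (a, ε, x.2.2) (b, ε', y.2.2)

/-- MON: the monodromy matrices form a group which preserves the pairing -/
def MonStmt : Prop :=
  ∀ (d : Type) [Fintype d] [DecidableEq d] (F : Fam d),
    mon F.H F.N F.q F.B Set.univ ⊆ Aut F.J0 ∧
    (1 : Matrix d d ℂ) ∈ mon F.H F.N F.q F.B Set.univ ∧
    (∀ a ∈ mon F.H F.N F.q F.B Set.univ, ∀ b ∈ mon F.H F.N F.q F.B Set.univ,
      a * b ∈ mon F.H F.N F.q F.B Set.univ) ∧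
    ∀ a ∈ mon F.H F.N F.q F.B Set.univ, a⁻¹ ∈ mon F.H F.N F.q F.B Set.univ

/-- HPL: the half plane -/
def HplStmt : Prop :=
  ∀ (d : Type) [Fintype d] [DecidableEq d] (F : Fam d), 2 ≤ Fintype.card d →
    ∃ m1 : ℝ, (∃ g ∈ mon F.H F.N F.q F.B {w | m1 < w.re}, ¬ Scal g) ∧
      ∀ g ∈ mon F.H F.N F.q F.B {w | m1 + 1 < w.re}, Scal g

/-- TU1: the tuples form a group -/
def Tu1Stmt : Prop :=
  ∀ (d : Type) [Fintype d] [DecidableEq d] (F : Fam d) (ι : Type) [Fintype ι] (κ : ι → ℕ),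
    (∀ t ∈ tup F.H F.N F.q F.B κ, ∀ i, t.1 i ∈ mon F.H F.N F.q F.B Set.univ) ∧
    ((fun _ => 1, 0) : (ι → Matrix d d ℂ) × ℤ) ∈ tup F.H F.N F.q F.B κ ∧
    (∀ t ∈ tup F.H F.N F.q F.B κ, ∀ t' ∈ tup F.H F.N F.q F.B κ,
      ((fun i => t.1 i * t'.1 i, t.2 + t'.2) : (ι → Matrix d d ℂ) × ℤ) ∈
        tup F.H F.N F.q F.B κ) ∧
    ∀ t ∈ tup F.H F.N F.q F.B κ,
      ((fun i => (t.1 i)⁻¹, -t.2) : (ι → Matrix d d ℂ) × ℤ) ∈ tup F.H F.N F.q F.B κ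

/-- TU2: every monodromy matrix of one translate occurs in a tuple -/
def Tu2Stmt : Prop :=
  ∀ (d : Type) [Fintype d] [DecidableEq d] (F : Fam d) (ι : Type) [Fintype ι] (κ : ι → ℕ) (i : ι),
    ∀ g ∈ mon F.H F.N F.q F.B Set.univ, ∃ t ∈ tup F.H F.N F.q F.B κ, t.1 i = g

/-- TU3: the loop in the half plane -/
def Tu3Stmt : Prop :=
  ∀ (d : Type) [Fintype d] [DecidableEq d] (F : Fam d), 2 ≤ Fintype.card d →
    ∀ (ι : Type) [Fintype ι] (κ : ι → ℕ) (i : ι),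
    ∃ t ∈ tup F.H F.N F.q F.B κ, ¬ Scal (t.1 i) ∧ ∀ i', κ i' < κ i → Scal (t.1 i')

/-! ### Groups -/

/-- NRM: normal subgroups of Zariski dense subgroups of the symplectic group -/
def NrmStmt : Prop :=
  ∀ (d : Type) [Fintype d] [DecidableEq d] (J0 : Matrix d d ℚ), J0ᵀ = -J0 → IsUnit J0.det →
    ∀ M Γ : Set (Matrix d d ℂ),
    (∀ f : MvPolynomial (d × d) ℂ, (∀ g ∈ M, pev g f = 0) → ∀ g ∈ Aut J0, pev g f = 0) →
    M ⊆ Aut J0 → Γ ⊆ Aut J0 → 1 ∈ Γ → (∀ a ∈ Γ, ∀ b ∈ Γ, a * b ∈ Γ) → (∀ a ∈ Γ, a⁻¹ ∈ Γ) →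
    (∀ m ∈ M, ∀ a ∈ Γ, m * a * m⁻¹ ∈ Γ) → (∃ a ∈ Γ, ¬ Scal a) →
    ∀ f : MvPolynomial (d × d) ℂ, (∀ g ∈ Γ, pev g f = 0) → ∀ g ∈ Aut J0, pev g f = 0

/-- COM: commutators -/
def ComStmt : Prop :=
  ∀ (d : Type) [Fintype d] [DecidableEq d] (J0 : Matrix d d ℚ), J0ᵀ = -J0 → IsUnit J0.det →
    ∀ M : Set (Matrix d d ℂ),
    (∀ f : MvPolynomial (d × d) ℂ, (∀ g ∈ M, pev g f = 0) → ∀ g ∈ Aut J0, pev g f = 0) →
    M ⊆ Aut J0 → ∀ a ∈ Aut J0, ¬ Scal a → ∃ m ∈ M, ¬ Scal (a * m * a⁻¹ * m⁻¹)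

/-! ### Relations -/

/-- the values of the variables: `w`, the logarithm, the entries of the matrices -/
def vr {ι d : Type} (w l : ℂ) (Y : ι → Matrix d d ℂ) : Bool ⊕ (ι × d × d) → ℂ
  | Sum.inl false => w
  | Sum.inl true => l
  | Sum.inr x => Y x.1 x.2.1 x.2.2

/-- PRM: permanence of relations under continuation -/
def PrmStmt : Prop :=
  ∀ (d : Type) [Fintype d] [DecidableEq d] (F : Fam d) (ι : Type) [Fintype ι] (κ : ι → ℕ),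
    ∃ R0 : ℝ, ∀ Φ : MvPolynomial (Bool ⊕ (ι × d × d)) ℂ,
      (∀ᶠ w : ℝ in Filter.atTop, MvPolynomial.eval (vr (w : ℂ) (Complex.log w)
        fun i => YH F.H F.N ((w : ℂ) - κ i)) Φ = 0) →
      ∀ t ∈ tup F.H F.N F.q F.B κ, ∀ w : ℝ, R0 < w →
        MvPolynomial.eval (vr (w : ℂ) (Complex.log w + 2 * Real.pi * Complex.I * t.2)
          fun i => YH F.H F.N ((w : ℂ) - κ i) * t.1 i) Φ = 0

/-- PRS: relations persist under the product of the symplectic groups -/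
def PrsStmt : Prop :=
  ∀ (d : Type) [Fintype d] [DecidableEq d] (F : Fam d), 2 ≤ Fintype.card d →
    ∀ (ι : Type) [Fintype ι] [DecidableEq ι] (κ : ι → ℕ), Function.Injective κ →
    ∃ R0 : ℝ, ∀ Φ : MvPolynomial (Bool ⊕ (ι × d × d)) ℂ,
      (∀ᶠ w : ℝ in Filter.atTop, MvPolynomial.eval (vr (w : ℂ) (Complex.log w)
        fun i => YH F.H F.N ((w : ℂ) - κ i)) Φ = 0) →
      ∀ w : ℝ, R0 < w → ∀ g : ι → Matrix d d ℂ, (∀ i, g i ∈ Aut F.J0) →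
        MvPolynomial.eval (vr (w : ℂ) (Complex.log w)
          fun i => YH F.H F.N ((w : ℂ) - κ i) * g i) Φ = 0

/-- the translated fundamental matrix -/
noncomputable def Tg {d : Type} [Fintype d] [DecidableEq d] (F : Fam d) (κ : ℕ) :
    Matrix d d (PowerSeries ℚ) := TrG F.H F.N X κ

/-- its value at `1/w` -/
noncomputable def tv {d : Type} [Fintype d] [DecidableEq d] (F : Fam d) (κ : ℕ) (w : ℝ) :
    Matrix d d ℂ := (Tg F κ).map (fun f => ((ev f w⁻¹ : ℝ) : ℂ))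

/-- FPS: formal relations persist -/
def FpsStmt : Prop :=
  ∀ (d : Type) [Fintype d] [DecidableEq d] (F : Fam d), 2 ≤ Fintype.card d →
    ∀ (ι : Type) [Fintype ι] [DecidableEq ι] (κ : ι → ℕ), Function.Injective κ → ∀ k : ℕ,
    ∃ R0 : ℝ, ∀ p : (ι × Fin k → d) → (ι × Fin k → d) → ℚ[X],
      ∑ β, ∑ α, ((p β α : ℚ[X]) : PowerSeries ℚ) * ∏ s, Tg F (κ s.1) (β s) (α s) = 0 →
      ∀ w : ℝ, R0 < w → ∀ g : ι → Matrix d d ℂ, (∀ i, g i ∈ Aut F.J0) →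
        ∑ β, ∑ α, (p β α).eval₂ (algebraMap ℚ ℂ) ((w : ℂ)⁻¹) *
          ∏ s, (tv F (κ s.1) w * g s.1) (β s) (α s) = 0

/-! ### Arithmetic -/

/-- the solution `H u` -/
noncomputable def hv {d : Type} [Fintype d] (H : Matrix d d (PowerSeries ℚ)) (u : d → ℚ) :
    d → PowerSeries ℚ :=
  fun i => ∑ j, H i j * PowerSeries.C (u j)

/-- the coefficient rows of the derivatives -/
noncomputable def Pv {d : Type} [Fintype d] (q : ℚ[X]) (B : Matrix d d ℚ[X]) (P : d → ℚ[X]) :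
    ℕ → d → ℚ[X]
  | 0 => P
  | k + 1 => ((k + 1 : ℚ)⁻¹) • ((X * q) • (fun i => derivative (Pv q B P k i)) +
      Pv q B P k ᵥ* B - (k : ℚ) • (derivative (X * q) • Pv q B P k))

/-- `R` is a maximal independent family of relations between the `h i` -/
structure RelB {d : Type} [Fintype d] (h : d → PowerSeries ℚ) {e : ℕ} (R : Fin e → d → ℚ[X]) :
    Prop where
  rel : ∀ j, ∑ i, ((R j i : ℚ[X]) : PowerSeries ℚ) * h i = 0
  indep : LinearIndependent ℚ[X] R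
  max : ∀ p : d → ℚ[X], ∑ i, ((p i : ℚ[X]) : PowerSeries ℚ) * h i = 0 →
    ∃ f : ℚ[X], f ≠ 0 ∧ f • p ∈ Submodule.span ℚ[X] (Set.range R)

/-- the determinant of the first `m'` rows and the relations -/
noncomputable def Dt {d : Type} [Fintype d] [DecidableEq d] (q : ℚ[X]) (B : Matrix d d ℚ[X])
    (P : d → ℚ[X]) {m' e : ℕ} (ε : d ≃ Fin m' ⊕ Fin e) (R : Fin e → d → ℚ[X]) : ℚ[X] :=
  (Matrix.of fun i j : d => Sum.elim (fun k : Fin m' => Pv q B P k j) (fun l => R l j) (ε i)).det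

/-- ZSA: first zero estimate -/
def ZsaStmt : Prop :=
  ∀ (d : Type) [Fintype d] [DecidableEq d] (H K : Matrix d d (PowerSeries ℚ)) (N : Matrix d d ℤ)
    (q : ℤ[X]) (B : Matrix d d ℤ[X]), GSys H K N q B → ∀ u : d → ℚ,
    N.map (fun x => (x : ℚ)) *ᵥ u = 0 →
    ∀ (m' e : ℕ) (ε : d ≃ Fin m' ⊕ Fin e) (R : Fin e → d → ℚ[X]), RelB (hv H u) R →
    ∃ c0 : ℕ, ∀ (M : ℕ) (P : d → ℚ[X]), (∀ i, (P i).natDegree ≤ M) →
      ∑ i, ((P i : ℚ[X]) : PowerSeries ℚ) * hv H u i ≠ 0 →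
      (∀ i ≤ (m' - 1) * M + c0,
        PowerSeries.coeff i (∑ i, ((P i : ℚ[X]) : PowerSeries ℚ) * hv H u i) = 0) →
      Dt (zq q) (B.map zq) P ε R ≠ 0

/-- ZSB: second zero estimate -/
def ZsbStmt : Prop :=
  ∀ (d : Type) [Fintype d] [DecidableEq d] (H K : Matrix d d (PowerSeries ℚ)) (N : Matrix d d ℤ)
    (q : ℤ[X]) (B : Matrix d d ℤ[X]), GSys H K N q B → ∀ u : d → ℚ,
    N.map (fun x => (x : ℚ)) *ᵥ u = 0 →
    ∀ (m' e : ℕ) (ε : d ≃ Fin m' ⊕ Fin e) (R : Fin e → d → ℚ[X]), RelB (hv H u) R →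
    ∃ c2 n0 : ℕ, ∀ (M T τ : ℕ) (P : d → ℚ[X]) (n : ℕ), n0 ≤ n → (∀ i, (P i).natDegree ≤ M) →
      (∀ i < T, PowerSeries.coeff i (∑ i, ((P i : ℚ[X]) : PowerSeries ℚ) * hv H u i) = 0) →
      Dt (zq q) (B.map zq) P ε R ≠ 0 → m' * M + c2 ≤ T + τ →
      LinearIndependent ℚ (fun l i => (R l i).eval ((n : ℚ)⁻¹)) ∧
      ∀ y : d → ℚ, (∀ k < m' + τ,
        ∑ i, (Pv (zq q) (B.map zq) P k i).eval ((n : ℚ)⁻¹) * y i = 0) →
        (∀ l, ∑ i, (R l i).eval ((n : ℚ)⁻¹) * y i = 0) → y = 0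

/-- GFV: a rational relation between the values at `1/n` of the solution `H u` is the specialisation
of a relation over the polynomials -/
def GfvStmt : Prop :=
  ∀ (d : Type) [Fintype d] [DecidableEq d] (H K : Matrix d d (PowerSeries ℚ)) (N : Matrix d d ℤ)
    (q : ℤ[X]) (B : Matrix d d ℤ[X]), GSys H K N q B → ∀ u : d → ℤ, N *ᵥ u = 0 →
    ∃ n0 : ℕ, ∀ n : ℕ, n0 ≤ n → ∀ a : d → ℚ,
      ∑ i, (a i : ℝ) * ev (hv H (fun j => (u j : ℚ)) i) (n : ℝ)⁻¹ = 0 →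
      ∃ p : d → ℚ[X], ∑ i, ((p i : ℚ[X]) : PowerSeries ℚ) * hv H (fun j => (u j : ℚ)) i = 0 ∧
        ∀ i, (p i).eval ((n : ℚ)⁻¹) = a i

/-- GFM: the same for all the entries of a fundamental matrix -/
def GfmStmt : Prop :=
  ∀ (d : Type) [Fintype d] [DecidableEq d] (H : Matrix d d (PowerSeries ℚ)), IsG H →
    ∃ n0 : ℕ, ∀ n : ℕ, n0 ≤ n → ∀ a : Matrix d d ℚ,
      ∑ i, ∑ j, (a i j : ℝ) * ev (H i j) (n : ℝ)⁻¹ = 0 →
      ∃ p : Matrix d d ℚ[X], ∑ i, ∑ j, ((p i j : ℚ[X]) : PowerSeries ℚ) * H i j = 0 ∧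
        ∀ i j, (p i j).eval ((n : ℚ)⁻¹) = a i j

/-- NUM: numerical relations at `1/n` persist under the product of the symplectic groups -/
def NumStmt : Prop :=
  ∀ (d : Type) [Fintype d] [DecidableEq d] (F : Fam d), 2 ≤ Fintype.card d →
    ∀ (ι : Type) [Fintype ι] [DecidableEq ι] (κ : ι → ℕ), Function.Injective κ → ∀ k : ℕ,
    ∃ n0 : ℕ, ∀ n : ℕ, n0 ≤ n → ∀ c : (ι × Fin k → d) → (ι × Fin k → d) → ℚ,
      ∑ β, ∑ α, (c β α : ℂ) * ∏ s, tv F (κ s.1) n (β s) (α s) = 0 →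
      ∀ g : ι → Matrix d d ℂ, (∀ i, g i ∈ Aut F.J0) →
        ∑ β, ∑ α, (c β α : ℂ) * ∏ s, (tv F (κ s.1) n * g s.1) (β s) (α s) = 0

/-- ELG: elimination of the unknown rational structure; windows and density -/
def ElgStmt : Prop :=
  ∀ (d : Type) [Fintype d] [DecidableEq d] (F : Fam d), 2 ≤ Fintype.card d →
    ∀ (k : ℕ) (A : Set (Fin k → d)), ∃ n1 : ℕ → ℕ, ∀ P : Matrix d d ℂ, IsUnit P.det →
    ∀ S : Set ℕ, (∀ n ∈ S, ∃ t : (Fin k → d) → ℚ,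
      (∀ a ∈ A, ∑ β, (t β : ℂ) * ∏ j, perG F P n (a j) (β j) = 0) ∧
      ∃ g ∈ Aut F.J0, ∃ a ∈ A,
        ∑ β, (t β : ℂ) * ∏ j, (P *ᵥ (YH F.H F.N n * g) (a j)) (β j) ≠ 0) →
      (∀ K n : ℕ, n1 K ≤ n →
        Nat.card {m : ℕ // m ∈ S ∧ n < m + K ∧ m ≤ n} ≤ (Fintype.card d ^ k) ^ 2) ∧
      DensZero S

/-! ### Hodge structures -/

/-- HDF: if the Mumford-Tate group is not the group of all similitudes, there is a Hodge tensor of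
degree four which is not invariant -/
def HdfStmt : Prop :=
  ∀ (n : Type) [Fintype n] [DecidableEq n] (w : ℕ) (E : Matrix n n ℚ)
    (V : ℕ → Submodule ℂ (n → ℂ)), Odd w → PolHodge w E V → 2 ≤ Fintype.card n →
    ¬ (∀ (K : Type u) [Field K] [CharZero K], mtGroup w V K = similitudes E K) →
    ∃ t : (Fin 4 → n) → ℚ,
      (∀ (p : Fin 4 → ℕ) (x : Fin 4 → n → ℂ), (∀ j, x j ∈ V (p j)) → 2 * w < ∑ j, p j →
        ∑ β, (t β : ℂ) * ∏ j, x j (β j) = 0) ∧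
      ∃ G ∈ Aut E, ∃ (p : Fin 4 → ℕ) (x : Fin 4 → n → ℂ), (∀ j, x j ∈ V (p j)) ∧
        2 * w < ∑ j, p j ∧ ∑ β, (t β : ℂ) * ∏ j, (G *ᵥ x j) (β j) ≠ 0

/-! ### Main theorem -/

/-- MAIN -/
def MainGStmt : Prop :=
  ∀ (d : Type) [Fintype d] [DecidableEq d] (F : Fam d), 2 < Fintype.card d →
    ∀ (w : ℕ) (lev : d → ℕ), ∃ n1 : ℕ → ℕ, ∀ P : Matrix d d ℂ, IsUnit P.det →
    ∃ S : Set ℕ, DensZero S ∧
      (∀ K n : ℕ, n1 K ≤ n →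
        Nat.card {m : ℕ // m ∈ S ∧ n < m + K ∧ m ≤ n} ≤ (Fintype.card d ^ 4) ^ 2) ∧
      ∀ n : ℕ, n ∉ S → ∀ (E : Matrix d d ℚ) (V : ℕ → Submodule ℂ (d → ℂ)),
        PolHodge w E V → Flat F P E → HasFil F lev P n V →
        (∀ (K : Type u) [Field K] [CharZero K], mtGroup w V K = similitudes E K) ∧
        ∀ (ℓ : ℕ) [Fact ℓ.Prime] (Γ : Type v) [Group Γ] (ρ : Γ →* GL d ℚ_[ℓ]),
          BigMonodromy E ρ → ∀ (K : Type u) [Field K] [CharZero K] [Algebra ℚ_[ℓ] K],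
            monodromy ρ K = mtGroup w V K

end Pool.Agent.MT100G
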