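import Pool.Agent.MT100.StmtsP

/-! General one parameter families: fundamental matrices near `w = ∞`, analytic continuation along
chains of discs, the monodromy group, families with symplectic pairing and Zariski dense monodromy. -/

set_option autoImplicit false

namespace Pool.Agent.MT100G

open Matrix Pool.Agent.MT100 Pool.Agent.Helper78_MT

variable {d : Type*} [Fintype d] [DecidableEq d]

/-- the value of a power series at a complex number -/
noncomputable def evC (f : PowerSeries ℚ) (x : ℂ) : ℂ :=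
  ∑' k, ((PowerSeries.coeff k f : ℚ) : ℂ) * x ^ k

/-- the value of an integral polynomial at a complex number -/
noncomputable def zC (p : Polynomial ℤ) (x : ℂ) : ℂ := (p.map (Int.castRingHom ℂ)).eval x

/-- the fundamental matrix near `w = ∞`, `z = 1/w`: `H(z) z ^ N` -/
noncomputable def YH (H : Matrix d d (PowerSeries ℚ)) (N : Matrix d d ℤ) (w : ℂ) : Matrix d d ℂ :=
  H.map (fun f => evC f w⁻¹) * eN N (-Complex.log w)

/-- `Y` is a fundamental matrix on the disc with centre `c` and radius `ρ` of the system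
`z q (dY/dz) = B Y`, `z = 1/w`; the disc contains no singular point. -/
structure SolOn (q : Polynomial ℤ) (B : Matrix d d (Polynomial ℤ)) (c : ℂ) (ρ : ℝ)
    (Y : ℂ → Matrix d d ℂ) : Prop where
  pos : 0 < ρ
  reg : ∀ w ∈ Metric.ball c ρ, w ≠ 0 ∧ zC q w⁻¹ ≠ 0
  det : ∀ w ∈ Metric.ball c ρ, IsUnit (Y w).det
  ode : ∀ w ∈ Metric.ball c ρ, ∀ i j, HasDerivAt (fun x => Y x i j)
    (-((w * zC q w⁻¹)⁻¹ * (B.map (fun p => zC p w⁻¹) * Y w) i j)) w

/-- one step of analytic continuation, from a disc to another disc which meets it, both inside `U` -/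
def Stp (q : Polynomial ℤ) (B : Matrix d d (Polynomial ℤ)) (U : Set ℂ)
    (x y : ℂ × ℝ × (ℂ → Matrix d d ℂ)) : Prop :=
  SolOn q B x.1 x.2.1 x.2.2 ∧ SolOn q B y.1 y.2.1 y.2.2 ∧
    Metric.ball x.1 x.2.1 ⊆ U ∧ Metric.ball y.1 y.2.1 ⊆ U ∧
    (Metric.ball x.1 x.2.1 ∩ Metric.ball y.1 y.2.1).Nonempty ∧
    ∀ w ∈ Metric.ball x.1 x.2.1 ∩ Metric.ball y.1 y.2.1, x.2.2 w = y.2.2 w

/-- analytic continuation along a chain of discs inside `U` -/
def Cnt (q : Polynomial ℤ) (B : Matrix d d (Polynomial ℤ)) (U : Set ℂ) :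
    (ℂ × ℝ × (ℂ → Matrix d d ℂ)) → (ℂ × ℝ × (ℂ → Matrix d d ℂ)) → Prop :=
  Relation.ReflTransGen (Stp q B U)

/-- the monodromy matrices: the fundamental matrix `YH` near infinity becomes `YH * g` by analytic
continuation along a closed chain of discs inside `U` -/
def mon (H : Matrix d d (PowerSeries ℚ)) (N : Matrix d d ℤ) (q : Polynomial ℤ)
    (B : Matrix d d (Polynomial ℤ)) (U : Set ℂ) : Set (Matrix d d ℂ) :=
  {g | ∀ᶠ c : ℝ in Filter.atTop,
    Cnt q B U ((c : ℂ), 1, YH H N) ((c : ℂ), 1, fun w => YH H N w * g)}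

/-- the complex matrices which preserve the bilinear form `J0` -/
def Aut (J0 : Matrix d d ℚ) : Set (Matrix d d ℂ) :=
  {g | gᵀ * J0.map (algebraMap ℚ ℂ) * g = J0.map (algebraMap ℚ ℂ)}

/-- A one parameter family: a system of G-type over `ℚ(w)` with unipotent monodromy at infinity
(`H` with inverse `K`, `N`, `q`, `B`), an alternating flat pairing (`J / s` on the system, `J0` on the
solutions), and monodromy Zariski dense in the symplectic group. -/
structure Fam (d : Type) [Fintype d] [DecidableEq d] where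
  H : Matrix d d (PowerSeries ℚ)
  K : Matrix d d (PowerSeries ℚ)
  N : Matrix d d ℤ
  q : Polynomial ℤ
  B : Matrix d d (Polynomial ℤ)
  J : Matrix d d (Polynomial ℚ)
  s : Polynomial ℚ
  J0 : Matrix d d ℚ
  sys : GSys H K N q B
  s_ne : s ≠ 0
  skew : J0ᵀ = -J0
  unit : IsUnit J0.det
  pair : Hᵀ * J.map (fun p => (p : PowerSeries ℚ)) * H =
    (s : PowerSeries ℚ) • J0.map (fun x => PowerSeries.C x)
  flat : (N.map (fun x => (x : ℚ)))ᵀ * J0 + J0 * N.map (fun x => (x : ℚ)) = 0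
  big : ∀ f : MvPolynomial (d × d) ℂ, (∀ g ∈ mon H N q B Set.univ, pev g f = 0) →
    ∀ g ∈ Aut J0, pev g f = 0

/-- the vector of the periods of the form with index `a` at the point `w`, for the rational structure
given by `P` -/
noncomputable def perG {d : Type} [Fintype d] [DecidableEq d] (F : Fam d) (P : Matrix d d ℂ) (w : ℂ)
    (a : d) : d → ℂ :=
  P *ᵥ YH F.H F.N w a

/-- The Hodge filtration of `V` is given by the periods at `w`; the forms with index `a` and
`p ≤ lev a` span `Fᵖ`. -/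
def HasFil {d : Type} [Fintype d] [DecidableEq d] (F : Fam d) (lev : d → ℕ) (P : Matrix d d ℂ)
    (w : ℂ) (V : ℕ → Submodule ℂ (d → ℂ)) : Prop :=
  ∀ p : ℕ, (⨆ p' ∈ Set.Ici p, V p') = Submodule.span ℂ {y | ∃ a : d, p ≤ lev a ∧ y = perG F P w a}

/-- The rational form `E` is flat: up to a scalar it is the pairing of the family, for the rational
structure given by `P`. -/
def Flat {d : Type} [Fintype d] [DecidableEq d] (F : Fam d) (P : Matrix d d ℂ) (E : Matrix d d ℚ) :
    Prop :=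
  ∃ c : ℂ, c ≠ 0 ∧ Pᵀ * E.map (algebraMap ℚ ℂ) * P = c • (F.J0⁻¹).map (algebraMap ℚ ℂ)

/-! ### Continuation of several translates and of the logarithm -/

/-- fundamental matrices near `w - κ i`, and a branch of the logarithm, on a disc -/
def SolT {ι : Type*} (q : Polynomial ℤ) (B : Matrix d d (Polynomial ℤ)) (κ : ι → ℕ)
    (x : ℂ × ℝ × (ι → ℂ → Matrix d d ℂ) × (ℂ → ℂ)) : Prop :=
  0 < x.2.1 ∧ (∀ i, SolOn q B (x.1 - κ i) x.2.1 (x.2.2.1 i)) ∧
    (∀ w ∈ Metric.ball x.1 x.2.1, w ≠ 0 ∧ Complex.exp (x.2.2.2 w) = w) ∧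
    DifferentiableOn ℂ x.2.2.2 (Metric.ball x.1 x.2.1)

/-- one step of simultaneous continuation -/
def StpT {ι : Type*} (q : Polynomial ℤ) (B : Matrix d d (Polynomial ℤ)) (κ : ι → ℕ)
    (x y : ℂ × ℝ × (ι → ℂ → Matrix d d ℂ) × (ℂ → ℂ)) : Prop :=
  SolT q B κ x ∧ SolT q B κ y ∧ (Metric.ball x.1 x.2.1 ∩ Metric.ball y.1 y.2.1).Nonempty ∧
    ∀ w ∈ Metric.ball x.1 x.2.1 ∩ Metric.ball y.1 y.2.1,
      (∀ i, x.2.2.1 i (w - κ i) = y.2.2.1 i (w - κ i)) ∧ x.2.2.2 w = y.2.2.2 w

/-- simultaneous continuation -/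
def CntT {ι : Type*} (q : Polynomial ℤ) (B : Matrix d d (Polynomial ℤ)) (κ : ι → ℕ) :
    (ℂ × ℝ × (ι → ℂ → Matrix d d ℂ) × (ℂ → ℂ)) → (ℂ × ℝ × (ι → ℂ → Matrix d d ℂ) × (ℂ → ℂ)) →
      Prop :=
  Relation.ReflTransGen (StpT q B κ)

/-- the tuples of monodromy matrices of the translates, with the winding number around the origin -/
def tup {ι : Type*} (H : Matrix d d (PowerSeries ℚ)) (N : Matrix d d ℤ) (q : Polynomial ℤ)
    (B : Matrix d d (Polynomial ℤ)) (κ : ι → ℕ) : Set ((ι → Matrix d d ℂ) × ℤ) :=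
  {t | ∀ᶠ c : ℝ in Filter.atTop, CntT q B κ ((c : ℂ), 1, (fun _ => YH H N), Complex.log)
    ((c : ℂ), 1, (fun i w => YH H N w * t.1 i),
      fun w => Complex.log w + 2 * Real.pi * Complex.I * t.2)}

/-- a scalar matrix -/
def Scal (g : Matrix d d ℂ) : Prop := ∃ c : ℂ, g = c • (1 : Matrix d d ℂ)

end Pool.Agent.MT100G
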